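import Mathlib
import Pool.Agent.H44.MG.FNB

/-!
For every convex set `F` the errors of deterministic non-adaptive algorithms are bounded by `400 n`
times the geometric mean of the errors of randomized non-adaptive algorithms: non-adaptive
randomization improves the rate of convergence on convex sets at most by one.
-/

namespace Pool.Agent.Results.MP_c1e612_an.ConvexGain

open Pool.Agent.H44.MG

theorem result {X Y : Type*} [NormedAddCommGroup X] [NormedSpace ℝ X]
    [NormedAddCommGroup Y] [NormedSpace ℝ Y] (S : X →L[ℝ] Y) (F : Set X) (hF : Convex ℝ F)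
    (n : ℕ) (hn : 1 ≤ n) :
    eDet S F (2 * n - 1) ≤
      400 * n * (∏ k ∈ Finset.range n, eRan S F k) ^ (1 / (n : ℝ)) :=
  gain_le hF hn

end Pool.Agent.Results.MP_c1e612_an.ConvexGain
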