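import Mathlib
import Pool.Agent.H44.MG.FNC

/-!
A gain of order `n` by non-adaptive randomization is impossible on a convex set `F` if the
deterministic errors decay at most polynomially.
-/

namespace Pool.Agent.Results.MP_c1e612_an.NoFullGain

open Pool.Agent.H44.MG

theorem result {X Y : Type*} [NormedAddCommGroup X] [NormedSpace ℝ X]
    [NormedAddCommGroup Y] [NormedSpace ℝ Y] (S : X →L[ℝ] Y) (F : Set X) (hF : Convex ℝ F)
    {c γ : ℝ} (hc : 0 < c) (hγ : 0 ≤ γ)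
    (hlow : ∀ n : ℕ, 1 ≤ n → ENNReal.ofReal (c * (n : ℝ) ^ (-γ)) ≤ eDet S F n)
    (hfin : ∀ n : ℕ, 1 ≤ n → eDet S F n < ⊤) (M : ℕ) (hM : 1 ≤ M) (C : ℝ) :
    ∃ n : ℕ, 1 ≤ n ∧ ENNReal.ofReal (C / n) * eDet S F n < eRan S F (M * n) :=
  no_full_gain hF hc hγ hlow hfin M hM C

end Pool.Agent.Results.MP_c1e612_an.NoFullGain
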