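import Mathlib
import Pool.Agent.H5.Gain.Rates

set_option autoImplicit false

/-! MP_c1e612_an: for a symmetric convex set (the unit ball of a Banach space) non-adaptive
randomized algorithms can be better than non-adaptive deterministic ones by a factor of order
`n ^ α` for every `α < 1`, and one operator does it for all `α < 1` at once. The randomized
algorithms use finitely many equally likely random choices. -/

namespace Pool.Agent.Results.MP_c1e612_an.SymmetricGain

open Pool.Agent.H5.Gain Filter Topology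

theorem result :
    ∃ (X : Type) (_ : NormedAddCommGroup X) (_ : NormedSpace ℝ X) (_ : CompleteSpace X)
      (Y : Type) (_ : NormedAddCommGroup Y) (_ : NormedSpace ℝ Y) (_ : CompleteSpace Y)
      (S : X →L[ℝ] Y) (F : Set X),
      F = Metric.closedBall 0 1 ∧
      (∀ n : ℕ, 0 < n → 0 < eDet S F n ∧ eDet S F n < ⊤) ∧
      Tendsto (fun n => eDet S F n) atTop (𝓝 0) ∧
      (∀ n : ℕ, eRan S F n ≤ eRanFin S F n) ∧
      (∀ ε : ℝ, 0 < ε → ∃ c C : ℝ, 0 < c ∧ 0 < C ∧ ∀ n : ℕ, 0 < n →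
        ENNReal.ofReal (c * (n : ℝ) ^ (-ε)) ≤ eDet S F n ∧
        eRanFin S F n ≤ ENNReal.ofReal (C * (n : ℝ) ^ (-1 + ε))) ∧
      (∀ α : ℝ, α < 1 → ∀ M : ℕ, 0 < M → ∃ C : ℝ, 0 < C ∧ ∀ n : ℕ, 0 < n →
        eRanFin S F n ≤ ENNReal.ofReal (C * (n : ℝ) ^ (-α)) * eDet S F (M * n)) ∧
      (∀ α : ℝ, α < 1 → ∃ C : ℝ, 0 < C ∧ ∀ n : ℕ, 0 < n →
        eRanFin S F (2 * n) ≤ ENNReal.ofReal (C * (n : ℝ) ^ (-α)) * eDet S F n) := by
  refine ⟨Xsum, inferInstance, inferInstance, inferInstance, Yinf, inferInstance, inferInstance,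
    inferInstance, Ssum, Metric.closedBall 0 1, rfl, ?_, det_tendsto,
    fun n => eRan_le_eRanFin _ _ n, ?_, ?_, ?_⟩
  · intro n hn
    constructor
    · obtain ⟨c, hc, h⟩ := det_rate 1 one_pos
      have hn' : (0 : ℝ) < n := by exact_mod_cast hn
      exact lt_of_lt_of_le (ENNReal.ofReal_pos.mpr (by positivity)) (h n hn)
    · exact lt_of_le_of_lt (eDet_le 0 n (by simp)) ENNReal.ofReal_lt_top
  · intro ε hε
    obtain ⟨c, hc, h1⟩ := det_rate ε hε
    obtain ⟨C, hC, h2⟩ := ran_rate ε hε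
    exact ⟨c, C, hc, hC, fun n hn => ⟨h1 n hn, h2 n hn⟩⟩
  · intro α hα M hM
    set ε : ℝ := (1 - α) / 2 with hε
    have hε0 : 0 < ε := by rw [hε]; linarith
    obtain ⟨c, hc, h1⟩ := det_rate ε hε0
    obtain ⟨C, hC, h2⟩ := ran_rate ε hε0
    have hM' : (0 : ℝ) < M := by exact_mod_cast hM
    refine ⟨C * (M : ℝ) ^ ε / c, by positivity, fun n hn => ?_⟩
    have hn' : (0 : ℝ) < n := by exact_mod_cast hn
    refine (h2 n hn).trans ?_
    calc ENNReal.ofReal (C * (n : ℝ) ^ (-1 + ε))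
        = ENNReal.ofReal (C * (M : ℝ) ^ ε / c * (n : ℝ) ^ (-α))
          * ENNReal.ofReal (c * ((M * n : ℕ) : ℝ) ^ (-ε)) := by
          rw [← ENNReal.ofReal_mul (by positivity)]
          congr 1
          have e1 : (n : ℝ) ^ (-1 + ε) = (n : ℝ) ^ (-α) * (n : ℝ) ^ (-ε) := by
            rw [← Real.rpow_add hn']
            congr 1
            rw [hε]; ring
          have e2 : ((M * n : ℕ) : ℝ) ^ (-ε) = (M : ℝ) ^ (-ε) * (n : ℝ) ^ (-ε) := by
            push_cast
            rw [Real.mul_rpow hM'.le hn'.le]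
          have e3 : (M : ℝ) ^ ε * (M : ℝ) ^ (-ε) = 1 := by
            rw [← Real.rpow_add hM', add_neg_cancel, Real.rpow_zero]
          rw [e1, e2]
          calc C * ((n : ℝ) ^ (-α) * (n : ℝ) ^ (-ε))
              = C * (n : ℝ) ^ (-α) * (n : ℝ) ^ (-ε) * ((M : ℝ) ^ ε * (M : ℝ) ^ (-ε)) := by
                rw [e3]; ring
            _ = _ := by field_simp
      _ ≤ _ := by
          gcongr
          exact h1 (M * n) (Nat.mul_pos hM hn)
  · intro α hα
    set ε : ℝ := (1 - α) / 2 with hε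
    have hε0 : 0 < ε := by rw [hε]; linarith
    obtain ⟨c, hc, h1⟩ := det_rate ε hε0
    obtain ⟨C, hC, h2⟩ := ran_rate ε hε0
    refine ⟨C * (2 : ℝ) ^ (-1 + ε) / c, by positivity, fun n hn => ?_⟩
    have hn' : (0 : ℝ) < n := by exact_mod_cast hn
    refine (h2 (2 * n) (by omega)).trans ?_
    calc ENNReal.ofReal (C * ((2 * n : ℕ) : ℝ) ^ (-1 + ε))
        = ENNReal.ofReal (C * (2 : ℝ) ^ (-1 + ε) / c * (n : ℝ) ^ (-α))
          * ENNReal.ofReal (c * (n : ℝ) ^ (-ε)) := by
          rw [← ENNReal.ofReal_mul (by positivity)]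
          congr 1
          have e1 : (n : ℝ) ^ (-1 + ε) = (n : ℝ) ^ (-α) * (n : ℝ) ^ (-ε) := by
            rw [← Real.rpow_add hn']
            congr 1
            rw [hε]; ring
          push_cast
          rw [Real.mul_rpow (by norm_num) hn'.le, e1]
          field_simp
      _ ≤ _ := by
          gcongr
          exact h1 n hn

end Pool.Agent.Results.MP_c1e612_an.SymmetricGain
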